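import Pool.Agent.W764.HL.Pair

/-!
In a cluster of points with comparable distances only boundedly many points are not
equidistributed in the window at the scale of the cluster.
-/

set_option autoImplicit false

open MeasureTheory Filter Topology Set

namespace Pool.Agent.N254.WS

open Pool.Agent.W764.FB Pool.Agent.W764.HL

/-- the discrepancy of `n x`, `n` in the window, is at most `ε` -/
def Equi (p q : ℕ) (X Y ε : ℝ) (x : T) : Prop :=
  (win p q X Y).Nonempty ∧ ∀ c : T, ∀ r : ℝ, 0 ≤ r → r ≤ 1 / 2 →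
    |(vis p q X Y x c r : ℝ) - 2 * r * (win p q X Y).card| ≤ ε * (win p q X Y).card

lemma norm_half : ‖((1 / 2 : ℝ) : T)‖ = 1 / 2 := by
  rw [UnitAddCircle.norm_eq]
  have h : round (1 / 2 : ℝ) = 1 := by
    rw [round_eq]
    norm_num
  rw [h]
  norm_num

/-- one-sided bounds for all arcs give two-sided bounds -/
lemma two_sided {p q : ℕ} {X Y ε : ℝ} {x : T}
    (h : ∀ c : T, ∀ r : ℝ, 0 ≤ r → r ≤ 1 / 2 →
      (2 * r - ε) * (win p q X Y).card ≤ (vis p q X Y x c r : ℝ)) :
    ∀ c : T, ∀ r : ℝ, 0 ≤ r → r ≤ 1 / 2 →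
      |(vis p q X Y x c r : ℝ) - 2 * r * (win p q X Y).card| ≤ ε * (win p q X Y).card := by
  classical
  intro c r hr0 hr
  have hcard : (0 : ℝ) ≤ (win p q X Y).card := Nat.cast_nonneg _
  have hle : (vis p q X Y x c r : ℝ) ≤ (win p q X Y).card := by
    unfold vis
    exact_mod_cast Finset.card_filter_le _ _
  have hε : 0 ≤ ε * (win p q X Y).card := by
    have h1 := h c (1 / 2) (by norm_num) le_rfl
    have h2 : (vis p q X Y x c (1 / 2) : ℝ) ≤ (win p q X Y).card := by
      unfold vis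
      exact_mod_cast Finset.card_filter_le _ _
    nlinarith
  have hlow := h c r hr0 hr
  rw [abs_le]
  refine ⟨by linarith, ?_⟩
  rcases hr.eq_or_lt with h2 | h2
  · rw [h2] at hle ⊢
    linarith
  · -- the complementary arc
    have key : ∀ η : ℝ, 0 < η → η ≤ 1 / 2 - r →
        (vis p q X Y x c r : ℝ) ≤ (2 * r + 2 * η + ε) * (win p q X Y).card := by
      intro η hη hη2
      have h3 := h (c + ((1 / 2 : ℝ) : T)) (1 / 2 - r - η) (by linarith) (by linarith)
      have h4 : (vis p q X Y x c r : ℝ) + (vis p q X Y x (c + ((1 / 2 : ℝ) : T)) (1 / 2 - r - η) : ℝ)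
          ≤ (win p q X Y).card := by
        unfold vis
        rw [← Nat.cast_add, ← Finset.card_union_of_disjoint]
        · exact_mod_cast Finset.card_le_card (by
            intro n hn
            rw [Finset.mem_union, Finset.mem_filter, Finset.mem_filter] at hn
            rcases hn with hn | hn <;> exact hn.1)
        · rw [Finset.disjoint_left]
          intro n h5 h6
          rw [Finset.mem_filter] at h5 h6
          have h7 : ‖((1 / 2 : ℝ) : T)‖ ≤ ‖n • x - c‖ + ‖n • x - (c + ((1 / 2 : ℝ) : T))‖ := by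
            have e : ((1 / 2 : ℝ) : T) = (n • x - c) - (n • x - (c + ((1 / 2 : ℝ) : T))) := by abel
            calc ‖((1 / 2 : ℝ) : T)‖ = ‖(n • x - c) - (n • x - (c + ((1 / 2 : ℝ) : T)))‖ := by
                  rw [← e]
              _ ≤ _ := norm_sub_le _ _
          rw [norm_half] at h7
          linarith [h5.2, h6.2]
      nlinarith
    have h5 : ∀ δ : ℝ, 0 < δ → (vis p q X Y x c r : ℝ) ≤
        2 * r * (win p q X Y).card + ε * (win p q X Y).card + δ := by
      intro δ hδ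
      set η : ℝ := min (1 / 2 - r) (δ / (2 * ((win p q X Y).card + 1))) with hηdef
      have hpos : (0 : ℝ) < 2 * ((win p q X Y).card + 1) := by positivity
      have hη : 0 < η := by
        refine lt_min (by linarith) (by positivity)
      have h6 := key η hη (min_le_left _ _)
      have h7 : η ≤ δ / (2 * ((win p q X Y).card + 1)) := min_le_right _ _
      rw [le_div_iff₀ hpos] at h7
      nlinarith
    have h8 := le_of_forall_pos_le_add h5
    linarith

/-- **Clusters**: among `m` points with comparable distances at least one is equidistributed. -/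
theorem no_cluster {p q : ℕ} (hp : 2 ≤ p) (hq : 2 ≤ q) (hpq : Nat.Coprime p q) {ε : ℝ}
    (hε : 0 < ε) : ∃ m : ℕ, 1 ≤ m ∧ ∀ K : ℝ, 1 ≤ K → ∃ H0 : ℝ, 1 < H0 ∧ ∀ H : ℝ, H0 ≤ H →
      ∃ δ : ℝ, 0 < δ ∧ ∀ τ : ℝ, 0 < τ → τ < δ → ∀ x : Fin m → T,
        (∀ i j, i ≠ j → τ ≤ ‖x i - x j‖ ∧ ‖x i - x j‖ ≤ K * τ) →
        ∃ i, Equi p q (1 / τ) (H / τ) ε (x i) := by
  obtain ⟨m, hm⟩ := exists_nat_gt (2 / ε)
  have hm0 : (0 : ℝ) < m := lt_trans (by positivity) hm
  have hm1 : 1 ≤ m := by exact_mod_cast hm0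
  refine ⟨m, hm1, fun K hK => ?_⟩
  obtain ⟨H0, hH0, h⟩ := cluster hp hq hpq m hK (ε := ε / 2) (by positivity)
  refine ⟨H0, hH0, fun H hH => ?_⟩
  obtain ⟨δ, hδ, h2⟩ := h H hH
  refine ⟨δ, hδ, fun τ hτ hτδ x hx => ?_⟩
  obtain ⟨hne, h3⟩ := h2 τ hτ hτδ
  obtain ⟨α, hα1, hα2, hα3⟩ := h3 x hx
  have hex : ∃ i, 1 - α i ≤ 1 / m := by
    by_contra hcon
    push Not at hcon
    have h4 : ∑ _i : Fin m, (1 / m : ℝ) < ∑ i, (1 - α i) := by
      refine Finset.sum_lt_sum_of_nonempty ?_ fun i _ => hcon i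
      exact ⟨⟨0, by omega⟩, Finset.mem_univ _⟩
    rw [Finset.sum_const, Finset.card_univ, Fintype.card_fin, nsmul_eq_mul,
      mul_one_div_cancel hm0.ne'] at h4
    linarith
  obtain ⟨i, hi⟩ := hex
  refine ⟨i, hne, two_sided fun c r hr0 hr => ?_⟩
  have h5 := hα3 i c r hr
  have h6 : (1 : ℝ) / m ≤ ε / 2 := by
    rw [div_le_iff₀ hm0]
    rw [div_lt_iff₀ hε] at hm
    linarith
  have h7 : 2 * r - ε ≤ 2 * r * α i - ε / 2 := by
    have h8 : 0 ≤ 1 - α i := by linarith [(hα1 i).2]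
    nlinarith
  have h9 : (2 * r - ε) * (win p q (1 / τ) (H / τ)).card ≤
      (2 * r * α i - ε / 2) * (win p q (1 / τ) (H / τ)).card := by gcongr
  refine h9.trans ?_
  unfold vis
  exact h5

end Pool.Agent.N254.WS
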