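import Mathlib

/-!
Coverings of the points which belong to most of the sets `Bad k`, when `Bad k` has no clusters of
`m` points at the scale `2 ^ (-k)`.
-/

set_option autoImplicit false

open Filter Topology Set

namespace Pool.Agent.N254.WS

/-- a set without clusters and of comparable diameter is covered by few balls -/
lemma cover_bad {m : ℕ} {τ K : ℝ} {B : Set UnitAddCircle}
    (hB : ∀ x : Fin m → UnitAddCircle, (∀ i, x i ∈ B) →
      ¬ ∀ i j, i ≠ j → τ ≤ ‖x i - x j‖ ∧ ‖x i - x j‖ ≤ K * τ)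
    (hdiam : ∀ x ∈ B, ∀ y ∈ B, ‖x - y‖ ≤ K * τ) (hτ : 0 < τ) :
    ∃ F : Finset UnitAddCircle, F.card ≤ m ∧ ∀ x ∈ B, ∃ y ∈ F, ‖x - y‖ ≤ τ := by
  classical
  let P : ℕ → Prop := fun n => ∃ F : Finset UnitAddCircle, (F : Set UnitAddCircle) ⊆ B ∧ F.card = n ∧
    ∀ x ∈ F, ∀ y ∈ F, x ≠ y → τ ≤ ‖x - y‖
  have hPlt : ∀ n, P n → n < m := by
    rintro n ⟨F, hFB, hFn, hF⟩
    by_contra hnm
    push Not at hnm
    obtain ⟨F', hF'F, hF'⟩ := Finset.exists_subset_card_eq (hnm.trans hFn.ge)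
    have e : F' ≃ Fin m := Finset.equivFinOfCardEq hF'
    refine hB (fun i => (e.symm i : UnitAddCircle)) (fun i => hFB (hF'F (e.symm i).2)) ?_
    intro i j hij
    have hne : (e.symm i : UnitAddCircle) ≠ e.symm j := by
      intro h
      exact hij (e.symm.injective (Subtype.ext h))
    exact ⟨hF _ (hF'F (e.symm i).2) _ (hF'F (e.symm j).2) hne,
      hdiam _ (hFB (hF'F (e.symm i).2)) _ (hFB (hF'F (e.symm j).2))⟩
  have hP0 : P 0 := ⟨∅, by simp, rfl, by simp⟩
  obtain ⟨F, hFB, hFn, hF⟩ : P (Nat.findGreatest P m) := Nat.findGreatest_spec (Nat.zero_le m) hP0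
  refine ⟨F, hFn ▸ Nat.findGreatest_le m, fun x hx => ?_⟩
  by_contra hcon
  push Not at hcon
  have hxF : x ∉ F := by
    intro h
    have := hcon x h
    rw [sub_self, norm_zero] at this
    linarith
  have hP1 : P (Nat.findGreatest P m + 1) := by
    refine ⟨insert x F, ?_, ?_, ?_⟩
    · intro y hy
      rw [Finset.coe_insert, Set.mem_insert_iff] at hy
      rcases hy with rfl | hy
      · exact hx
      · exact hFB hy
    · rw [Finset.card_insert_of_notMem hxF, hFn]
    · intro y hy z hz hyz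
      rw [Finset.mem_insert] at hy hz
      rcases hy with rfl | hy <;> rcases hz with rfl | hz
      · exact absurd rfl hyz
      · exact (hcon z hz).le
      · rw [norm_sub_rev]; exact (hcon y hy).le
      · exact hF y hy z hz hyz
  have h1 := hPlt _ hP1
  have h2 : Nat.findGreatest P m + 1 ≤ Nat.findGreatest P m := Nat.le_findGreatest h1.le hP1
  omega

lemma exists_rep (x : UnitAddCircle) : ∃ y : ℝ, (y : UnitAddCircle) = x ∧ |y| = ‖x‖ := by
  obtain ⟨z, rfl⟩ := QuotientAddGroup.mk_surjective x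
  refine ⟨z - round z, ?_, ?_⟩
  · change ((z - (round z : ℝ) : ℝ) : UnitAddCircle) = ((z : ℝ) : UnitAddCircle)
    rw [AddCircle.coe_sub]
    have : (((round z : ℤ) : ℝ) : UnitAddCircle) = 0 := by
      rw [AddCircle.coe_eq_zero_iff]
      exact ⟨round z, by simp⟩
    rw [this, sub_zero]
  · change _ = ‖((z : ℝ) : UnitAddCircle)‖
    rw [UnitAddCircle.norm_eq]

lemma coe_sub' (a b : ℝ) : ((a - b : ℝ) : UnitAddCircle) = (a : UnitAddCircle) - b := rfl

lemma norm_le_one (x : UnitAddCircle) : ‖x‖ ≤ 1 := by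
  obtain ⟨y, rfl⟩ := QuotientAddGroup.mk_surjective x
  change ‖((y : ℝ) : UnitAddCircle)‖ ≤ 1
  rw [UnitAddCircle.norm_eq]
  have := abs_sub_round y
  linarith

lemma norm_coe_le (y : ℝ) : ‖(y : UnitAddCircle)‖ ≤ |y| := by
  rw [UnitAddCircle.norm_eq]
  have := round_le y 0
  simpa using this

/-- a ball is covered by smaller balls -/
lemma cover_ball (L : ℕ) {τ : ℝ} (hτ : 0 < τ) (c : UnitAddCircle) :
    ∃ F : Finset UnitAddCircle, F.card ≤ 2 ^ L ∧
      ∀ x : UnitAddCircle, ‖x - c‖ ≤ 2 ^ L * τ → ∃ y ∈ F, ‖x - y‖ ≤ τ := by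
  classical
  refine ⟨(Finset.range (2 ^ L)).image fun i : ℕ =>
    c + (((2 * (i : ℝ) + 1) * τ - 2 ^ L * τ : ℝ) : UnitAddCircle), ?_, fun x hx => ?_⟩
  · exact Finset.card_image_le.trans (by rw [Finset.card_range])
  obtain ⟨u, hu, hun⟩ := exists_rep (x - c)
  rw [← hun, abs_le] at hx
  have hL : 1 ≤ 2 ^ L := Nat.one_le_two_pow
  set w : ℝ := (u + 2 ^ L * τ) / (2 * τ) with hw
  have hw0 : 0 ≤ w := div_nonneg (by linarith [hx.1]) (by positivity)
  have hwu : u = w * (2 * τ) - 2 ^ L * τ := by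
    rw [hw]; field_simp; ring
  have hw1 : w ≤ 2 ^ L := by
    rw [hw, div_le_iff₀ (by positivity)]
    linarith [hx.2]
  set i : ℕ := min ⌊w⌋₊ (2 ^ L - 1) with hi
  have hi1 : (i : ℝ) ≤ w := by
    refine le_trans ?_ (Nat.floor_le hw0)
    exact_mod_cast min_le_left _ _
  have hi2 : w ≤ i + 1 := by
    rcases le_total ⌊w⌋₊ (2 ^ L - 1) with h | h
    · rw [hi, min_eq_left h]
      exact (Nat.lt_floor_add_one w).le
    · rw [hi, min_eq_right h, Nat.cast_sub hL]
      push_cast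
      linarith
  refine ⟨_, Finset.mem_image.2 ⟨i, ?_, rfl⟩, ?_⟩
  · rw [Finset.mem_range]
    have := min_le_right ⌊w⌋₊ (2 ^ L - 1)
    omega
  · have e : x - (c + (((2 * (i : ℝ) + 1) * τ - 2 ^ L * τ : ℝ) : UnitAddCircle)) =
        ((u - ((2 * (i : ℝ) + 1) * τ - 2 ^ L * τ) : ℝ) : UnitAddCircle) := by
      rw [coe_sub' u, hu]; abel
    rw [e]
    refine (norm_coe_le _).trans ?_
    rw [abs_le]
    constructor
    · rw [hwu]; nlinarith
    · rw [hwu]; nlinarith

section
variable {Bad : ℕ → Set UnitAddCircle} {m L k0 : ℕ}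

/-- coverings for a given pattern -/
theorem pattern_cover
    (hB : ∀ k, k0 ≤ k → ∀ x : Fin m → UnitAddCircle, (∀ i, x i ∈ Bad k) →
      ¬ ∀ i j, i ≠ j → (1 / 2 : ℝ) ^ k ≤ ‖x i - x j‖ ∧
        ‖x i - x j‖ ≤ 2 ^ (L + 1) * (1 / 2 : ℝ) ^ k)
    {k1 : ℕ} (hk1 : k0 ≤ k1) (P : Finset ℕ) (J : ℕ) :
    ∃ F : Finset UnitAddCircle, F.card ≤ 2 ^ k1 * (m ^ ((Finset.range J).filter (· ∈ P)).card *
      (2 ^ L) ^ ((Finset.range J).filter (· ∉ P)).card) ∧
      ∀ x, (∀ j < J, j ∈ P → x ∈ Bad (k1 + (j + 1) * L)) →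
        ∃ y ∈ F, ‖x - y‖ ≤ (1 / 2 : ℝ) ^ (k1 + J * L) := by
  classical
  induction J with
  | zero =>
    obtain ⟨F, hF1, hF2⟩ := cover_ball k1 (τ := (1 / 2 : ℝ) ^ k1) (by positivity) 0
    refine ⟨F, by simpa using hF1, fun x _ => ?_⟩
    obtain ⟨y, hy, hxy⟩ := hF2 x (by
      rw [sub_zero, ← mul_pow]
      norm_num
      exact norm_le_one x)
    exact ⟨y, hy, by simpa using hxy⟩
  | succ J ih =>
    obtain ⟨F, hF1, hF2⟩ := ih
    set τ : ℝ := (1 / 2 : ℝ) ^ (k1 + (J + 1) * L) with hτ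
    have hτ0 : 0 < τ := by positivity
    have hτL : (1 / 2 : ℝ) ^ (k1 + J * L) = 2 ^ L * τ := by
      have e2 : (2 : ℝ) ^ L * (1 / 2 : ℝ) ^ L = 1 := by rw [← mul_pow]; norm_num
      rw [hτ, show k1 + (J + 1) * L = (k1 + J * L) + L by ring, pow_add _ _ L, mul_left_comm, e2,
        mul_one]
    by_cases hJP : J ∈ P
    · have hcov : ∀ y : UnitAddCircle, ∃ G : Finset UnitAddCircle, G.card ≤ m ∧
          ∀ x ∈ {x | ‖x - y‖ ≤ (1 / 2 : ℝ) ^ (k1 + J * L) ∧ x ∈ Bad (k1 + (J + 1) * L)},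
            ∃ z ∈ G, ‖x - z‖ ≤ τ := by
        intro y
        refine cover_bad (K := 2 ^ (L + 1)) ?_ ?_ hτ0
        · intro x hx
          exact hB (k1 + (J + 1) * L) (by nlinarith [Nat.zero_le ((J + 1) * L)]) x fun i => (hx i).2
        · rintro x ⟨hx, -⟩ z ⟨hz, -⟩
          have h1 : ‖x - z‖ ≤ ‖x - y‖ + ‖z - y‖ := by
            calc ‖x - z‖ = ‖(x - y) - (z - y)‖ := by congr 1; abel
              _ ≤ _ := norm_sub_le _ _
          rw [hτL] at hx hz
          rw [pow_succ]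
          linarith
      choose G hG1 hG2 using hcov
      refine ⟨F.biUnion G, ?_, fun x hx => ?_⟩
      · have h1 : (F.biUnion G).card ≤ F.card * m := Finset.card_biUnion_le_card_mul _ _ _
          fun y _ => hG1 y
        have e1 : ((Finset.range (J + 1)).filter (· ∈ P)).card =
            ((Finset.range J).filter (· ∈ P)).card + 1 := by
          rw [Finset.range_add_one, Finset.filter_insert, if_pos hJP,
            Finset.card_insert_of_notMem (by simp)]
        have e2 : ((Finset.range (J + 1)).filter (· ∉ P)).card =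
            ((Finset.range J).filter (· ∉ P)).card := by
          rw [Finset.range_add_one, Finset.filter_insert, if_neg (by simpa using hJP)]
        rw [e1, e2]
        refine h1.trans ((Nat.mul_le_mul_right m hF1).trans (le_of_eq ?_))
        ring
      · obtain ⟨y, hy, hxy⟩ := hF2 x fun j hj hjP => hx j (by omega) hjP
        obtain ⟨z, hz, hxz⟩ := hG2 y x ⟨hxy, hx J (by omega) hJP⟩
        exact ⟨z, Finset.mem_biUnion.2 ⟨y, hy, hz⟩, hxz⟩
    · have hcov : ∀ y : UnitAddCircle, ∃ G : Finset UnitAddCircle, G.card ≤ 2 ^ L ∧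
          ∀ x : UnitAddCircle, ‖x - y‖ ≤ 2 ^ L * τ → ∃ z ∈ G, ‖x - z‖ ≤ τ :=
        fun y => cover_ball L hτ0 y
      choose G hG1 hG2 using hcov
      refine ⟨F.biUnion G, ?_, fun x hx => ?_⟩
      · have h1 : (F.biUnion G).card ≤ F.card * 2 ^ L := Finset.card_biUnion_le_card_mul _ _ _
          fun y _ => hG1 y
        have e1 : ((Finset.range (J + 1)).filter (· ∉ P)).card =
            ((Finset.range J).filter (· ∉ P)).card + 1 := by
          rw [Finset.range_add_one, Finset.filter_insert, if_pos hJP,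
            Finset.card_insert_of_notMem (by simp)]
        have e2 : ((Finset.range (J + 1)).filter (· ∈ P)).card =
            ((Finset.range J).filter (· ∈ P)).card := by
          rw [Finset.range_add_one, Finset.filter_insert, if_neg hJP]
        rw [e1, e2]
        refine h1.trans ((Nat.mul_le_mul_right _ hF1).trans (le_of_eq ?_))
        ring
      · obtain ⟨y, hy, hxy⟩ := hF2 x fun j hj hjP => hx j (by omega) hjP
        rw [hτL] at hxy
        obtain ⟨z, hz, hxz⟩ := hG2 y x hxy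
        exact ⟨z, Finset.mem_biUnion.2 ⟨y, hy, hz⟩, hxz⟩

/-- coverings of the points with few good scales -/
theorem level_cover (hm : 1 ≤ m) (hL : 1 ≤ L)
    (hB : ∀ k, k0 ≤ k → ∀ x : Fin m → UnitAddCircle, (∀ i, x i ∈ Bad k) →
      ¬ ∀ i j, i ≠ j → (1 / 2 : ℝ) ^ k ≤ ‖x i - x j‖ ∧
        ‖x i - x j‖ ≤ 2 ^ (L + 1) * (1 / 2 : ℝ) ^ k)
    {s : ℝ} (hs : 0 ≤ s) {n : ℕ} (hn : k0 + 2 * L ≤ n) :
    ∃ F : Finset UnitAddCircle, (F.card : ℝ) ≤
      (L * 2 ^ (k0 + 3 * L) : ℝ) * (2 : ℝ) ^ ((s + Real.logb 2 (2 * m) / L) * n) ∧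
      ∀ x, (({k | k < n ∧ x ∉ Bad k}.ncard : ℕ) : ℝ) ≤ s * n →
        ∃ y ∈ F, ‖x - y‖ ≤ (1 / 2 : ℝ) ^ n := by
  classical
  set J : ℕ := (n - k0) / L - 1 with hJ
  have hLd : 2 ≤ (n - k0) / L := by
    rw [Nat.le_div_iff_mul_le (by omega)]; omega
  have hJ1 : k0 + (J + 1) * L ≤ n := by
    have h1 : (n - k0) / L * L ≤ n - k0 := Nat.div_mul_le_self _ _
    have h2 : J + 1 = (n - k0) / L := by omega
    rw [h2]; omega
  have hJ2 : n < k0 + J * L + 2 * L := by
    have h1 : n - k0 < ((n - k0) / L + 1) * L := by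
      rw [mul_comm]; exact Nat.lt_mul_div_succ _ (by omega)
    have h2 : (n - k0) / L = J + 1 := by omega
    rw [h2] at h1
    have h3 : (J + 1 + 1) * L = J * L + 2 * L := by ring
    omega
  -- the coverings
  have hcov : ∀ (a : ℕ) (Q : Finset ℕ), ∃ F : Finset UnitAddCircle, F.card ≤
      (2 ^ (k0 + a) * (m ^ ((Finset.range J).filter (· ∈ Finset.range J \ Q)).card *
      (2 ^ L) ^ ((Finset.range J).filter (· ∉ Finset.range J \ Q)).card)) * 2 ^ (2 * L) ∧
      (a < L → ∀ x, (∀ j < J, j ∉ Q → x ∈ Bad (k0 + a + (j + 1) * L)) →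
        ∃ y ∈ F, ‖x - y‖ ≤ (1 / 2 : ℝ) ^ n) := by
    intro a Q
    obtain ⟨F, hF1, hF2⟩ := pattern_cover hB (k1 := k0 + a) (by omega) (Finset.range J \ Q) J
    have hb : ∀ y : UnitAddCircle, ∃ G : Finset UnitAddCircle, G.card ≤ 2 ^ (2 * L) ∧
        ∀ x : UnitAddCircle, ‖x - y‖ ≤ 2 ^ (2 * L) * (1 / 2 : ℝ) ^ n →
          ∃ z ∈ G, ‖x - z‖ ≤ (1 / 2 : ℝ) ^ n := fun y => cover_ball (2 * L) (by positivity) y
    choose G hG1 hG2 using hb
    refine ⟨F.biUnion G, ?_, fun ha x hx => ?_⟩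
    · exact (Finset.card_biUnion_le_card_mul _ _ _ fun y _ => hG1 y).trans
        (Nat.mul_le_mul_right _ hF1)
    · obtain ⟨y, hy, hxy⟩ := hF2 x fun j hj hjP => hx j hj (by
        rw [Finset.mem_sdiff] at hjP; exact hjP.2)
      obtain ⟨z, hz, hxz⟩ := hG2 y x (by
        refine hxy.trans ?_
        have e2 : (2 : ℝ) ^ (2 * L) * (1 / 2 : ℝ) ^ (2 * L) = 1 := by rw [← mul_pow]; norm_num
        have h3 : n ≤ 2 * L + (k0 + a + J * L) := by omega
        calc (1 / 2 : ℝ) ^ (k0 + a + J * L) =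
              2 ^ (2 * L) * (1 / 2 : ℝ) ^ (2 * L + (k0 + a + J * L)) := by
                rw [pow_add (1 / 2 : ℝ) (2 * L), ← mul_assoc, e2, one_mul]
          _ ≤ 2 ^ (2 * L) * (1 / 2 : ℝ) ^ n :=
                mul_le_mul_of_nonneg_left
                  (pow_le_pow_of_le_one (by norm_num) (by norm_num) h3) (by positivity))
      exact ⟨z, Finset.mem_biUnion.2 ⟨y, hy, hz⟩, hxz⟩
  choose G hG1 hG2 using hcov
  set QQ : Finset (Finset ℕ) := (Finset.range J).powerset.filter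
    fun Q => (L : ℝ) * Q.card ≤ s * n with hQQ
  have hLR : (1 : ℝ) ≤ L := by exact_mod_cast hL
  have hmR : (1 : ℝ) ≤ m := by exact_mod_cast hm
  have hGcard : ∀ a < L, ∀ Q ∈ QQ, ((G a Q).card : ℝ) ≤
      2 ^ (k0 + 3 * L) * ((m : ℝ) ^ J * (2 : ℝ) ^ (s * n)) := by
    intro a ha Q hQ
    rw [hQQ, Finset.mem_filter, Finset.mem_powerset] at hQ
    have h1 : ((G a Q).card : ℝ) ≤ (((2 ^ (k0 + a) *
        (m ^ ((Finset.range J).filter (· ∈ Finset.range J \ Q)).card *
        (2 ^ L) ^ ((Finset.range J).filter (· ∉ Finset.range J \ Q)).card)) * 2 ^ (2 * L) : ℕ) : ℝ) := by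
      exact_mod_cast hG1 a Q
    push_cast at h1
    refine h1.trans ?_
    have h2 : ((Finset.range J).filter (· ∈ Finset.range J \ Q)).card ≤ J := by
      refine (Finset.card_filter_le _ _).trans ?_
      rw [Finset.card_range]
    have h3 : ((Finset.range J).filter (· ∉ Finset.range J \ Q)).card ≤ Q.card := by
      refine Finset.card_le_card fun j hj => ?_
      rw [Finset.mem_filter, Finset.mem_sdiff] at hj
      by_contra h
      exact hj.2 ⟨hj.1, h⟩
    have h4 : (m : ℝ) ^ ((Finset.range J).filter (· ∈ Finset.range J \ Q)).card ≤ (m : ℝ) ^ J :=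
      pow_le_pow_right₀ hmR h2
    have h5 : ((2 : ℝ) ^ L) ^ ((Finset.range J).filter (· ∉ Finset.range J \ Q)).card ≤
        (2 : ℝ) ^ (s * n) := by
      rw [← pow_mul, ← Real.rpow_natCast]
      refine Real.rpow_le_rpow_of_exponent_le (by norm_num) ?_
      push_cast
      refine le_trans ?_ hQ.2
      exact mul_le_mul_of_nonneg_left (by exact_mod_cast h3) (by linarith)
    have h6 : (2 : ℝ) ^ (k0 + a) ≤ 2 ^ (k0 + L) :=
      pow_le_pow_right₀ (by norm_num) (by omega)
    have e7 : (2 : ℝ) ^ (k0 + 3 * L) = 2 ^ (k0 + L) * 2 ^ (2 * L) := by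
      rw [← pow_add]; congr 1; ring
    rw [e7]
    calc _ ≤ (2 : ℝ) ^ (k0 + L) * ((m : ℝ) ^ J * (2 : ℝ) ^ (s * n)) * 2 ^ (2 * L) := by
          gcongr
      _ = _ := by ring
  refine ⟨(Finset.range L).biUnion fun a => QQ.biUnion fun Q => G a Q, ?_, fun x hx => ?_⟩
  · have h1 : (((Finset.range L).biUnion fun a => QQ.biUnion fun Q => G a Q).card : ℝ) ≤
        ∑ a ∈ Finset.range L, ∑ Q ∈ QQ, ((G a Q).card : ℝ) := by
      have h2 : ((Finset.range L).biUnion fun a => QQ.biUnion fun Q => G a Q).card ≤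
          ∑ a ∈ Finset.range L, ∑ Q ∈ QQ, (G a Q).card :=
        Finset.card_biUnion_le.trans (Finset.sum_le_sum fun a _ => Finset.card_biUnion_le)
      exact_mod_cast h2
    have h2 : ∑ a ∈ Finset.range L, ∑ Q ∈ QQ, ((G a Q).card : ℝ) ≤
        ∑ _a ∈ Finset.range L, ∑ _Q ∈ QQ, 2 ^ (k0 + 3 * L) * ((m : ℝ) ^ J * (2 : ℝ) ^ (s * n)) :=
      Finset.sum_le_sum fun a ha => Finset.sum_le_sum fun Q hQ =>
        hGcard a (Finset.mem_range.1 ha) Q hQ
    have h3 : (QQ.card : ℝ) ≤ 2 ^ J := by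
      have : QQ.card ≤ 2 ^ J := by
        refine (Finset.card_filter_le _ _).trans ?_
        rw [Finset.card_powerset, Finset.card_range]
      exact_mod_cast this
    have h4 : ((2 : ℝ) * m) ^ J ≤ (2 : ℝ) ^ (Real.logb 2 (2 * m) / L * n) := by
      have h5 : (1 : ℝ) ≤ 2 * m := by linarith
      have h6 : (J : ℝ) ≤ n / L := by
        rw [le_div_iff₀ (by linarith)]
        have : J * L ≤ n := by
          have : (J + 1) * L = J * L + L := by ring
          omega
        exact_mod_cast this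
      calc ((2 : ℝ) * m) ^ J = (2 * (m : ℝ)) ^ (J : ℝ) := (Real.rpow_natCast _ _).symm
        _ ≤ (2 * (m : ℝ)) ^ ((n : ℝ) / L) := Real.rpow_le_rpow_of_exponent_le h5 h6
        _ = ((2 : ℝ) ^ (Real.logb 2 (2 * m))) ^ ((n : ℝ) / L) := by
            rw [Real.rpow_logb (by norm_num) (by norm_num) (by linarith)]
        _ = _ := by
            rw [← Real.rpow_mul (by norm_num)]; congr 1; ring
    refine h1.trans (h2.trans ?_)
    rw [Finset.sum_const, Finset.card_range, Finset.sum_const, nsmul_eq_mul, nsmul_eq_mul]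
    have e5 : (2 : ℝ) ^ ((s + Real.logb 2 (2 * m) / L) * n) =
        2 ^ (s * n) * (2 : ℝ) ^ (Real.logb 2 (2 * m) / L * n) := by
      rw [← Real.rpow_add (by norm_num)]; congr 1; ring
    rw [e5]
    calc (L : ℝ) * (QQ.card * (2 ^ (k0 + 3 * L) * ((m : ℝ) ^ J * (2 : ℝ) ^ (s * n))))
        ≤ (L : ℝ) * (2 ^ J * (2 ^ (k0 + 3 * L) * ((m : ℝ) ^ J * (2 : ℝ) ^ (s * n)))) := by
          gcongr
      _ = L * 2 ^ (k0 + 3 * L) * (2 ^ (s * n) * (2 * m) ^ J) := by
          rw [mul_pow]; ring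
      _ ≤ _ := by gcongr
  · -- pigeonhole over the residues
    set g : ℕ → ℕ := fun a => ((Finset.range J).filter
      fun j => x ∉ Bad (k0 + a + (j + 1) * L)).card with hg
    have hsum : ((∑ a ∈ Finset.range L, g a : ℕ) : ℝ) ≤ s * n := by
      refine le_trans ?_ hx
      have hfin : {k | k < n ∧ x ∉ Bad k}.Finite := (Set.finite_lt_nat n).subset fun k hk => hk.1
      have e1 : ∑ a ∈ Finset.range L, g a = ((Finset.range L).sigma fun a =>
          (Finset.range J).filter fun j => x ∉ Bad (k0 + a + (j + 1) * L)).card := by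
        rw [Finset.card_sigma]
      rw [e1]
      rw [← Set.ncard_coe_finset]
      have hinj : Set.InjOn (fun w : (Σ _ : ℕ, ℕ) => k0 + w.1 + (w.2 + 1) * L)
          ((Finset.range L).sigma fun a =>
            (Finset.range J).filter fun j => x ∉ Bad (k0 + a + (j + 1) * L) : Finset (Σ _ : ℕ, ℕ)) := by
        rintro ⟨a, j⟩ h1 ⟨b, i⟩ h2 h
        rw [Finset.mem_coe, Finset.mem_sigma, Finset.mem_range] at h1 h2
        have ha : a < L := h1.1
        have hb : b < L := h2.1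
        have h3 : a + (j + 1) * L = b + (i + 1) * L := by
          have : k0 + a + (j + 1) * L = k0 + b + (i + 1) * L := h
          omega
        have h4 : a = b := by
          have h5 := congrArg (· % L) h3
          simp only [Nat.add_mul_mod_self_right, Nat.mod_eq_of_lt ha, Nat.mod_eq_of_lt hb] at h5
          exact h5
        subst h4
        have h5 : (j + 1) * L = (i + 1) * L := by omega
        have h6 := Nat.eq_of_mul_eq_mul_right (by omega) h5
        have h7 : j = i := by omega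
        rw [h7]
      rw [← Set.ncard_image_of_injOn hinj]
      have hsub : (fun w : (Σ _ : ℕ, ℕ) => k0 + w.1 + (w.2 + 1) * L) ''
          ((Finset.range L).sigma fun a =>
            (Finset.range J).filter fun j => x ∉ Bad (k0 + a + (j + 1) * L) : Finset (Σ _ : ℕ, ℕ)) ⊆
          {k | k < n ∧ x ∉ Bad k} := by
        rintro _ ⟨⟨a, j⟩, h1, rfl⟩
        rw [Finset.mem_coe, Finset.mem_sigma, Finset.mem_range, Finset.mem_filter,
          Finset.mem_range] at h1
        have ha : a < L := h1.1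
        have hj : j < J := h1.2.1
        refine ⟨?_, h1.2.2⟩
        have h8 : (j + 1) * L ≤ J * L := Nat.mul_le_mul_right L (by omega)
        have h9 : (J + 1) * L = J * L + L := by ring
        show k0 + a + (j + 1) * L < n
        omega
      exact_mod_cast Set.ncard_le_ncard hsub hfin
    obtain ⟨a, ha, hga⟩ : ∃ a < L, (L : ℝ) * g a ≤ s * n := by
      by_contra hcon
      push Not at hcon
      have h1 : ∑ a ∈ Finset.range L, (s * n / L) < ∑ a ∈ Finset.range L, (g a : ℝ) := by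
        refine Finset.sum_lt_sum_of_nonempty ⟨0, Finset.mem_range.2 (by omega)⟩ fun a ha => ?_
        rw [div_lt_iff₀ (by linarith), mul_comm (g a : ℝ)]
        exact hcon a (Finset.mem_range.1 ha)
      rw [Finset.sum_const, Finset.card_range, nsmul_eq_mul] at h1
      have h2 : (L : ℝ) * (s * n / L) = s * n := by field_simp
      rw [h2] at h1
      push_cast at hsum
      linarith
    set Q : Finset ℕ := (Finset.range J).filter fun j => x ∉ Bad (k0 + a + (j + 1) * L) with hQ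
    have hQQ' : Q ∈ QQ := by
      rw [hQQ, Finset.mem_filter, Finset.mem_powerset]
      exact ⟨Finset.filter_subset _ _, hga⟩
    obtain ⟨y, hy, hxy⟩ := hG2 a Q ha x fun j hj hjQ => by
      by_contra h
      exact hjQ (by rw [hQ, Finset.mem_filter, Finset.mem_range]; exact ⟨hj, h⟩)
    refine ⟨y, ?_, hxy⟩
    rw [Finset.mem_biUnion]
    exact ⟨a, Finset.mem_range.2 ha, Finset.mem_biUnion.2 ⟨Q, hQQ', hy⟩⟩

end

end Pool.Agent.N254.WS
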