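import Pool.Agent.N254.WS.Sharp

/-!
The exact dimension.
-/

set_option autoImplicit false

open MeasureTheory Filter Topology Set
open scoped ENNReal

namespace Pool.Agent.N254.WS

open Pool.Agent.W764.FB Pool.Agent.W764.SH Pool.Agent.W764.HL

lemma cnt_le (p q : ℕ) (H ε : ℝ) (n : ℕ) (x : T) : cnt p q H ε n x ≤ n := by
  unfold cnt
  have h1 : {k : ℕ | k < n ∧ Equi p q (2 ^ k) (H * 2 ^ k) ε x} ⊆ (Finset.range n : Set ℕ) := by
    intro k hk
    rw [Finset.mem_coe, Finset.mem_range]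
    exact hk.1
  have h2 := Set.ncard_le_ncard h1 (Finset.finite_toSet _)
  rwa [Set.ncard_coe_finset, Finset.card_range] at h2

lemma equi_mono {p q : ℕ} {X Y ε ε' : ℝ} (h : ε ≤ ε') {x : T} (hx : Equi p q X Y ε x) :
    Equi p q X Y ε' x :=
  ⟨hx.1, fun c r h0 h1 => (hx.2 c r h0 h1).trans
    (mul_le_mul_of_nonneg_right h (Nat.cast_nonneg _))⟩

lemma cnt_mono (p q : ℕ) (H : ℝ) {ε ε' : ℝ} (h : ε ≤ ε') (n : ℕ) (x : T) :
    cnt p q H ε n x ≤ cnt p q H ε' n x := by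
  unfold cnt
  refine Set.ncard_le_ncard (fun k hk => ⟨hk.1, equi_mono h hk.2⟩) ?_
  exact (Set.finite_lt_nat n).subset fun k hk => hk.1

lemma bdd (p q : ℕ) (H ε : ℝ) (x : T) :
    IsBoundedUnder (· ≥ ·) atTop fun n : ℕ => (cnt p q H ε n x : ℝ) / n :=
  ⟨0, eventually_map.2 (Eventually.of_forall fun n => by positivity)⟩

lemma cobdd (p q : ℕ) (H ε : ℝ) (x : T) :
    IsCoboundedUnder (· ≥ ·) atTop fun n : ℕ => (cnt p q H ε n x : ℝ) / n := by
  refine IsBoundedUnder.isCoboundedUnder_ge ⟨1, eventually_map.2 (Eventually.of_forall fun n => ?_)⟩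
  rcases Nat.eq_zero_or_pos n with h | h
  · subst h; simp
  · have h1 : (0 : ℝ) < n := by exact_mod_cast h
    rw [div_le_one h1]
    exact_mod_cast cnt_le p q H ε n x

lemma freq_of_liminf {p q : ℕ} {H ε s : ℝ} {x : T}
    (h : liminf (fun n : ℕ => (cnt p q H ε n x : ℝ) / n) atTop < s) :
    ∃ᶠ n : ℕ in atTop, (cnt p q H ε n x : ℝ) ≤ s * n := by
  have h1 := frequently_lt_of_liminf_lt (cobdd p q H ε x) h
  refine (h1.and_eventually (eventually_ge_atTop 1)).mono ?_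
  rintro n ⟨h2, h3⟩
  have h4 : (0 : ℝ) < n := by exact_mod_cast h3
  rw [div_lt_iff₀ h4] at h2
  exact h2.le

lemma liminf_of_freq {p q : ℕ} {H ε s2 s : ℝ} {x : T} (hs : s2 < s)
    (h : ∃ᶠ n : ℕ in atTop, (cnt p q H ε n x : ℝ) ≤ s2 * n) :
    liminf (fun n : ℕ => (cnt p q H ε n x : ℝ) / n) atTop < s := by
  refine lt_of_le_of_lt (liminf_le_of_frequently_le ?_ (bdd p q H ε x)) hs
  refine (h.and_eventually (eventually_ge_atTop 1)).mono ?_
  rintro n ⟨h2, h3⟩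
  have h4 : (0 : ℝ) < n := by exact_mod_cast h3
  rw [div_le_iff₀ h4]
  exact h2

/-- Hausdorff dimension of the points with few good windows infinitely often -/
theorem dim_le {p q : ℕ} {H ε s s' : ℝ} (hs' : 0 ≤ s') {n0 : ℕ}
    (hcov : ∀ n : ℕ, n0 ≤ n → ∃ F : Finset T, (F.card : ℝ) ≤ (2 : ℝ) ^ (s' * n) ∧
        ∀ x : T, (cnt p q H ε n x : ℝ) ≤ s * n → ∃ y ∈ F, ‖x - y‖ ≤ (1 / 2 : ℝ) ^ n) :
    dimH {x : T | ∃ᶠ n : ℕ in atTop, (cnt p q H ε n x : ℝ) ≤ s * n} ≤ ENNReal.ofReal s' := by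
  choose! F hF1 hF2 using hcov
  refine Pool.Agent.Y314.FD.dimH_le_of_balls _ F (b := 1 / 2) (by norm_num) (by norm_num) hs'
    (v0 := n0) (fun v hv => ?_) fun x hx => ?_
  · refine (hF1 v hv).trans (le_of_eq ?_)
    rw [one_div, Real.inv_rpow (by norm_num), ← Real.rpow_neg (by norm_num), neg_neg]
  · refine (hx.and_eventually (eventually_ge_atTop n0)).mono ?_
    rintro n ⟨h1, h2⟩
    obtain ⟨y, hy, hxy⟩ := hF2 n h2 x h1
    exact ⟨y, hy, by rw [dist_eq_norm]; exact hxy⟩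

/-- packing dimension of the points with few good windows for all large scales -/
theorem packing {p q : ℕ} {H ε s s' : ℝ} (hs' : 0 ≤ s') {n0 : ℕ}
    (hcov : ∀ n : ℕ, n0 ≤ n → ∃ F : Finset T, (F.card : ℝ) ≤ (2 : ℝ) ^ (s' * n) ∧
        ∀ x : T, (cnt p q H ε n x : ℝ) ≤ s * n → ∃ y ∈ F, ‖x - y‖ ≤ (1 / 2 : ℝ) ^ n) :
    ∃ E : ℕ → Set T, {x : T | ∀ᶠ n : ℕ in atTop, (cnt p q H ε n x : ℝ) ≤ s * n} ⊆ ⋃ i, E i ∧
      ∀ i, ∃ C : ℝ, ∀ n : ℕ, ∃ F : Finset T, (F.card : ℝ) ≤ C * (2 : ℝ) ^ (s' * n) ∧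
        ∀ x ∈ E i, ∃ y ∈ F, ‖x - y‖ ≤ (1 / 2 : ℝ) ^ n := by
  refine ⟨fun i => {x | ∀ n, i ≤ n → (cnt p q H ε n x : ℝ) ≤ s * n}, ?_, fun i => ?_⟩
  · intro x hx
    obtain ⟨i, hi⟩ := eventually_atTop.1 hx
    exact mem_iUnion.2 ⟨i, hi⟩
  · refine ⟨2 ^ (n0 + i), fun n => ?_⟩
    have h1 : (1 : ℝ) ≤ (2 : ℝ) ^ (s' * n) := Real.one_le_rpow (by norm_num) (by positivity)
    rcases Nat.lt_or_ge n (n0 + i) with h | h
    · obtain ⟨F, hF1, hF2⟩ := cover_ball n (τ := (1 / 2 : ℝ) ^ n) (by positivity) 0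
      refine ⟨F, ?_, fun x _ => hF2 x ?_⟩
      · have h2 : (F.card : ℝ) ≤ 2 ^ n := by exact_mod_cast hF1
        have h3 : (2 : ℝ) ^ n ≤ 2 ^ (n0 + i) := pow_le_pow_right₀ (by norm_num) h.le
        have h4 : (0 : ℝ) < 2 ^ (n0 + i) := by positivity
        nlinarith
      · rw [sub_zero, ← mul_pow]
        norm_num
        exact norm_le_one x
    · obtain ⟨F, hF1, hF2⟩ := hcov n (by omega)
      refine ⟨F, ?_, fun x hx => hF2 x (hx n (by omega))⟩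
      have h4 : (1 : ℝ) ≤ 2 ^ (n0 + i) := one_le_pow₀ (by norm_num)
      nlinarith

/-- The points with lower frequency of good windows below `s`, for some `ε` and arbitrarily large
ratios `H`. -/
theorem dim_upper {p q : ℕ} (hp : 2 ≤ p) (hq : 2 ≤ q) (hpq : Nat.Coprime p q) {s : ℝ}
    (hs : 0 ≤ s) :
    dimH {x : T | ∃ ε : ℝ, 0 < ε ∧ ∀ H0 : ℕ, ∃ H : ℕ, H0 ≤ H ∧
      liminf (fun n : ℕ => (cnt p q H ε n x : ℝ) / n) atTop < s} ≤ ENNReal.ofReal s := by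
  refine ENNReal.le_of_forall_pos_le_add fun η hη _ => ?_
  have hss : s < s + η := by
    have : (0 : ℝ) < η := by exact_mod_cast hη
    linarith
  have h := fun j : ℕ => cover hp hq hpq (ε := 1 / ((j : ℝ) + 1)) (by positivity) hs hss
  choose H0 hH0 hcov using h
  have hsub : {x : T | ∃ ε : ℝ, 0 < ε ∧ ∀ H0 : ℕ, ∃ H : ℕ, H0 ≤ H ∧
      liminf (fun n : ℕ => (cnt p q H ε n x : ℝ) / n) atTop < s} ⊆
      ⋃ j : ℕ, ⋃ H : ℕ, {x : T | H0 j ≤ H ∧
        ∃ᶠ n : ℕ in atTop, (cnt p q H (1 / ((j : ℝ) + 1)) n x : ℝ) ≤ s * n} := by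
    rintro x ⟨ε, hε, hx⟩
    obtain ⟨j, hj⟩ := exists_nat_one_div_lt hε
    obtain ⟨H, hH, hlim⟩ := hx ⌈H0 j⌉₊
    rw [mem_iUnion₂]
    refine ⟨j, H, (Nat.le_ceil _).trans (by exact_mod_cast hH), ?_⟩
    refine (freq_of_liminf hlim).mono fun n hn => le_trans ?_ hn
    exact_mod_cast cnt_mono p q H hj.le n x
  refine (dimH_mono hsub).trans ?_
  rw [dimH_iUnion]
  refine iSup_le fun j => ?_
  rw [dimH_iUnion]
  refine iSup_le fun H => ?_
  by_cases hH : H0 j ≤ H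
  · obtain ⟨n0, hn0⟩ := hcov j H hH
    have h1 := dim_le (p := p) (q := q) (H := H) (ε := 1 / ((j : ℝ) + 1)) (s := s)
      (s' := s + η) (by positivity) hn0
    refine (dimH_mono fun x hx => hx.2).trans (h1.trans (le_of_eq ?_))
    rw [ENNReal.ofReal_add hs (NNReal.coe_nonneg η), ENNReal.ofReal_coe_nnreal]
  · have : {x : T | H0 j ≤ H ∧
        ∃ᶠ n : ℕ in atTop, (cnt p q H (1 / ((j : ℝ) + 1)) n x : ℝ) ≤ s * n} = ∅ := by
      ext x
      simp [hH]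
    rw [this, dimH_empty]
    exact zero_le

/-- **Lower bound of the dimension.** -/
theorem dim_lower {p q : ℕ} (hp : 2 ≤ p) (hq : 2 ≤ q)
    (hirr : Irrational (Real.log p / Real.log q)) {s : ℝ} (hs1 : s ≤ 1) :
    ENNReal.ofReal s ≤ dimH {x : T | ∃ ε : ℝ, 0 < ε ∧ ∀ H : ℝ, (q : ℝ) ≤ H →
      liminf (fun n : ℕ => (cnt p q H ε n x : ℝ) / n) atTop < s} := by
  refine le_of_forall_lt_imp_le_of_dense fun c hc => ?_
  have hcfin : c ≠ ∞ := ne_top_of_lt hc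
  set c' : ℝ := c.toReal with hc'
  have hc'0 : 0 ≤ c' := ENNReal.toReal_nonneg
  have hc's : c' < s := by
    rw [← ENNReal.ofReal_toReal hcfin] at hc
    exact (ENNReal.ofReal_lt_ofReal_iff_of_nonneg hc'0).1 hc
  obtain ⟨w, hw1, hw2⟩ := exists_rat_btwn hc's
  have hw0 : (0 : ℝ) < w := lt_of_le_of_lt hc'0 hw1
  have hw0' : 0 < w := by exact_mod_cast hw0
  have hnum : 0 < w.num := Rat.num_pos.2 hw0'
  set a : ℕ := w.num.toNat with ha
  set b : ℕ := w.den with hb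
  have haR : (a : ℝ) = w.num := by
    have : ((w.num.toNat : ℕ) : ℤ) = w.num := Int.toNat_of_nonneg hnum.le
    exact_mod_cast this
  have hab : (w : ℝ) = a / b := by
    rw [haR]; exact_mod_cast (Rat.num_div_den w).symm
  have ha1 : 1 ≤ a := by omega
  have hb1 : 0 < b := w.den_pos
  have hbR : (0 : ℝ) < b := by exact_mod_cast hb1
  have hablt : a < b := by
    have h1 : (a : ℝ) / b < 1 := by rw [← hab]; linarith
    rw [div_lt_one hbR] at h1
    exact_mod_cast h1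
  have haRp : (0 : ℝ) < a := by exact_mod_cast ha1
  -- the growth of the blocks
  obtain ⟨G0, hG0⟩ := exists_nat_ge (2 / ((w : ℝ) - c'))
  set G : ℕ := G0 + b + 2 with hG
  have hGR : 2 / ((w : ℝ) - c') ≤ G := by
    refine hG0.trans ?_
    exact_mod_cast (by omega : G0 ≤ G)
  have hGpos : (0 : ℝ) < G := by
    have : 0 < G := by omega
    exact_mod_cast this
  have hGb : b < G * a := by
    calc b < G := by omega
      _ = G * 1 := (mul_one G).symm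
      _ ≤ G * a := Nat.mul_le_mul_left _ ha1
  have hne : NeZero (p ^ (G + 1)) := ⟨by positivity⟩
  have hbm : 2 * p ^ G ≤ p ^ (G + 1) := by
    have e : p ^ (G + 1) = p * p ^ G := pow_succ' _ _
    rw [e]
    exact Nat.mul_le_mul_right _ hp
  have h1 := Pool.Agent.Y314.FD.free_dim (G := G) ha1 hablt hGb (p := p) (R := G) hp (by omega) hbm
  have hsub : Pool.Agent.Y314.FD.cantor (m := p ^ (G + 1)) (b := p ^ G) hbm
      (Pool.Agent.Y314.FD.free a b G) ⊆ {x : T | ∃ ε : ℝ, 0 < ε ∧ ∀ H : ℝ, (q : ℝ) ≤ H →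
      liminf (fun n : ℕ => (cnt p q H ε n x : ℝ) / n) atTop < s} := by
    obtain ⟨ε, hε, s2, -, hs2, hfew⟩ := few_good hp hq hirr hw0.le hw2
    intro x hx
    refine ⟨ε, hε, fun H hH => ?_⟩
    refine liminf_of_freq hs2 (hfew x (fun k => (G + 1) * (a * G ^ k))
      (fun k => (G + 1) * (b * G ^ k)) ?_ ?_ ?_ ?_ H hH)
    · refine tendsto_atTop_mono (fun k => ?_) tendsto_id
      have h2 : k < G ^ k := Nat.lt_pow_self (by omega)
      have h3 : G ^ k ≤ b * G ^ k := Nat.le_mul_of_pos_left _ hb1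
      have h4 : b * G ^ k ≤ (G + 1) * (b * G ^ k) := Nat.le_mul_of_pos_left _ (by omega)
      show k ≤ (G + 1) * (b * G ^ k)
      omega
    · intro k
      rw [hab]
      push_cast
      field_simp
    · intro k
      exact Nat.mul_le_mul_left _ (Nat.mul_le_mul_right _ hablt.le)
    · intro k
      have h2 := Pool.Agent.Y314.FD.zero_run hp hbm hx k
      rwa [Nat.mul_sub] at h2
  have h2 := dimH_mono hsub
  refine le_trans ?_ (h1.trans h2)
  rw [← ENNReal.ofReal_toReal hcfin]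
  apply ENNReal.ofReal_le_ofReal
  rw [← hc']
  have hwc : 0 < (w : ℝ) - c' := by linarith
  have h3 : 2 / (G : ℝ) ≤ w - c' := by
    rw [div_le_iff₀ hwc] at hGR
    rw [div_le_iff₀ hGpos]
    linarith
  have hw1' : (w : ℝ) ≤ 1 := by linarith
  have h4 : (G : ℝ) * (G * a - b) / ((G + 1) * (G * b)) = G / (G + 1) * (w - 1 / G) := by
    rw [hab]; field_simp
  rw [h4]
  have h5 : (G : ℝ) / (G + 1) * (w - 1 / G) = w - (w + 1) / (G + 1) := by
    field_simp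
    ring
  rw [h5]
  have h6 : ((w : ℝ) + 1) / (G + 1) ≤ 2 / G := by
    rw [div_le_div_iff₀ (by positivity) hGpos]
    nlinarith
  linarith

/-- bounded number of non-equidistributed points in a cluster -/
theorem clusters {p q : ℕ} (hp : 2 ≤ p) (hq : 2 ≤ q) (hpq : Nat.Coprime p q) {ε : ℝ}
    (hε : 0 < ε) : ∃ M : ℕ, ∀ K : ℝ, 1 ≤ K → ∃ H0 : ℝ, 1 < H0 ∧ ∀ H : ℝ, H0 ≤ H →
      ∃ δ : ℝ, 0 < δ ∧ ∀ τ : ℝ, 0 < τ → τ < δ → ∀ S : Finset T,
        (∀ x ∈ S, ∀ y ∈ S, x ≠ y → τ ≤ ‖x - y‖ ∧ ‖x - y‖ ≤ K * τ) →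
        ({x : T | x ∈ S ∧ ¬ Equi p q (1 / τ) (H / τ) ε x}.ncard) ≤ M := by
  classical
  obtain ⟨m, hm, h⟩ := no_cluster hp hq hpq hε
  refine ⟨m, fun K hK => ?_⟩
  obtain ⟨H0, hH0, h2⟩ := h K hK
  refine ⟨H0, hH0, fun H hH => ?_⟩
  obtain ⟨δ, hδ, h3⟩ := h2 H hH
  refine ⟨δ, hδ, fun τ hτ hτδ S hS => ?_⟩
  by_contra hcon
  push Not at hcon
  have e : {x : T | x ∈ S ∧ ¬ Equi p q (1 / τ) (H / τ) ε x} =
      ((S.filter fun x => ¬ Equi p q (1 / τ) (H / τ) ε x : Finset T) : Set T) := by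
    ext x; simp
  rw [e, Set.ncard_coe_finset] at hcon
  obtain ⟨F, hFS, hF⟩ := Finset.exists_subset_card_eq hcon.le
  have ee : F ≃ Fin m := Finset.equivFinOfCardEq hF
  obtain ⟨i, hi⟩ := h3 τ hτ hτδ (fun i => (ee.symm i : T)) (by
    intro i j hij
    have hne : (ee.symm i : T) ≠ ee.symm j := fun h => hij (ee.symm.injective (Subtype.ext h))
    have h4 := hFS (ee.symm i).2
    have h5 := hFS (ee.symm j).2
    rw [Finset.mem_filter] at h4 h5
    exact hS _ h4.1 _ h5.1 hne)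
  have h4 := hFS (ee.symm i).2
  rw [Finset.mem_filter] at h4
  exact h4.2 hi

end Pool.Agent.N254.WS
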