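import Pool.Agent.N254.WS.Bad
import Pool.Agent.N254.WS.Count
import Pool.Agent.Y314.FD.DimUp

/-!
The windows in which the orbit of a point is equidistributed: Hausdorff dimension, packing
dimension and measures.
-/

set_option autoImplicit false

open MeasureTheory Filter Topology Set
open scoped ENNReal

namespace Pool.Agent.N254.WS

open Pool.Agent.W764.FB Pool.Agent.W764.HL

/-- the number of the good dyadic windows below `n` -/
noncomputable def cnt (p q : ℕ) (H ε : ℝ) (n : ℕ) (x : T) : ℕ :=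
  {k : ℕ | k < n ∧ Equi p q (2 ^ k) (H * 2 ^ k) ε x}.ncard

/-- **Covering of the points with few good windows.** -/
theorem cover {p q : ℕ} (hp : 2 ≤ p) (hq : 2 ≤ q) (hpq : Nat.Coprime p q) {ε : ℝ} (hε : 0 < ε)
    {s s' : ℝ} (hs : 0 ≤ s) (hss : s < s') : ∃ H0 : ℝ, 1 < H0 ∧ ∀ H : ℝ, H0 ≤ H →
      ∃ n0 : ℕ, ∀ n : ℕ, n0 ≤ n → ∃ F : Finset T, (F.card : ℝ) ≤ (2 : ℝ) ^ (s' * n) ∧
        ∀ x : T, (cnt p q H ε n x : ℝ) ≤ s * n → ∃ y ∈ F, ‖x - y‖ ≤ (1 / 2 : ℝ) ^ n := by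
  obtain ⟨m, hm, hmain⟩ := no_cluster hp hq hpq hε
  set η : ℝ := (s' - s) / 2 with hη
  have hη0 : 0 < η := by rw [hη]; linarith
  obtain ⟨L0, hL0⟩ := exists_nat_ge (Real.logb 2 (2 * m) / η)
  set L : ℕ := L0 + 1 with hL
  have hLR : (0 : ℝ) < L := by rw [hL]; positivity
  have hlog : Real.logb 2 (2 * m) / L ≤ η := by
    rw [div_le_iff₀ hLR]
    rw [div_le_iff₀ hη0] at hL0
    have : (L0 : ℝ) ≤ L := by rw [hL]; push_cast; linarith
    nlinarith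
  obtain ⟨H0, hH0, h⟩ := hmain (2 ^ (L + 1)) (one_le_pow₀ (by norm_num))
  refine ⟨H0, hH0, fun H hH => ?_⟩
  obtain ⟨δ, hδ, h2⟩ := h H hH
  obtain ⟨k0, hk0⟩ := exists_pow_lt_of_lt_one hδ (by norm_num : (1 / 2 : ℝ) < 1)
  set Bad : ℕ → Set T := fun k => {x | ¬ Equi p q (2 ^ k) (H * 2 ^ k) ε x} with hBad
  have hB : ∀ k, k0 ≤ k → ∀ x : Fin m → T, (∀ i, x i ∈ Bad k) →
      ¬ ∀ i j, i ≠ j → (1 / 2 : ℝ) ^ k ≤ ‖x i - x j‖ ∧
        ‖x i - x j‖ ≤ 2 ^ (L + 1) * (1 / 2 : ℝ) ^ k := by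
    intro k hk x hx hcl
    obtain ⟨i, hi⟩ := h2 ((1 / 2 : ℝ) ^ k) (by positivity)
      ((pow_le_pow_of_le_one (by norm_num) (by norm_num) hk).trans_lt hk0) x hcl
    apply hx i
    have e1 : (1 : ℝ) / (1 / 2) ^ k = 2 ^ k := by
      rw [one_div_pow, one_div_one_div]
    have e2 : H / (1 / 2 : ℝ) ^ k = H * 2 ^ k := by
      rw [one_div_pow, div_div_eq_mul_div, div_one]
    rwa [e1, e2] at hi
  -- the constant is absorbed
  have hlim : Tendsto (fun n : ℕ => (2 : ℝ) ^ (η * n)) atTop atTop := by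
    have h1 : Tendsto (fun n : ℕ => ((2 : ℝ) ^ η) ^ n) atTop atTop :=
      tendsto_pow_atTop_atTop_of_one_lt (Real.one_lt_rpow (by norm_num) hη0)
    refine h1.congr fun n => ?_
    rw [← Real.rpow_natCast, ← Real.rpow_mul (by norm_num)]
  obtain ⟨n1, hn1⟩ := eventually_atTop.1 (hlim.eventually_ge_atTop (L * 2 ^ (k0 + 3 * L) : ℝ))
  refine ⟨max n1 (k0 + 2 * L), fun n hn => ?_⟩
  obtain ⟨F, hF1, hF2⟩ := level_cover (Bad := Bad) hm (by omega) hB hs (n := n)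
    ((le_max_right _ _).trans hn)
  refine ⟨F, ?_, fun x hx => ?_⟩
  · have h3 := hn1 n ((le_max_left _ _).trans hn)
    have h4 : (2 : ℝ) ^ ((s + Real.logb 2 (2 * m) / L) * n) ≤ (2 : ℝ) ^ ((s + η) * n) :=
      Real.rpow_le_rpow_of_exponent_le (by norm_num) (by gcongr)
    calc (F.card : ℝ) ≤ _ := hF1
      _ ≤ (2 : ℝ) ^ (η * n) * (2 : ℝ) ^ ((s + η) * n) := by gcongr
      _ = (2 : ℝ) ^ (s' * n) := by
          rw [← Real.rpow_add (by norm_num)]; congr 1; rw [hη]; ring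
  · refine hF2 x ?_
    have e : {k | k < n ∧ x ∉ Bad k} = {k : ℕ | k < n ∧ Equi p q (2 ^ k) (H * 2 ^ k) ε x} := by
      ext k
      simp [hBad]
    rw [e]
    exact hx

/-- measure of a set covered by few balls -/
lemma measure_le_of_cover {ν : Measure T} {D : Set T} {F : Finset T} {ρ : ℝ} {c : ℝ≥0∞}
    (hF : ∀ x ∈ D, ∃ y ∈ F, ‖x - y‖ ≤ ρ) (hD : ∀ x ∈ D, ν (Metric.closedBall x (2 * ρ)) ≤ c) :
    ν D ≤ F.card * c := by
  classical
  have h1 : D ⊆ ⋃ y ∈ F, (D ∩ Metric.closedBall y ρ) := by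
    intro x hx
    obtain ⟨y, hy, hxy⟩ := hF x hx
    rw [Set.mem_iUnion₂]
    exact ⟨y, hy, hx, by rw [Metric.mem_closedBall, dist_eq_norm]; exact hxy⟩
  refine (measure_mono h1).trans ((measure_biUnion_finset_le F _).trans ?_)
  rw [← nsmul_eq_mul, ← Finset.sum_const]
  refine Finset.sum_le_sum fun y _ => ?_
  rcases (D ∩ Metric.closedBall y ρ).eq_empty_or_nonempty with h | ⟨x, hx, hxy⟩
  · rw [h, measure_empty]; exact zero_le
  · refine (measure_mono ?_).trans (hD x hx)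
    rintro z ⟨-, hz⟩
    rw [Metric.mem_closedBall] at hz hxy ⊢
    rw [dist_comm] at hxy
    linarith [dist_triangle z y x]

/-- measures of large lower dimension -/
theorem ae_lower {p q : ℕ} {H ε s s' s'' : ℝ} (hs'' : s'' < s') {n0 : ℕ}
    (hcov : ∀ n : ℕ, n0 ≤ n → ∃ F : Finset T, (F.card : ℝ) ≤ (2 : ℝ) ^ (s'' * n) ∧
        ∀ x : T, (cnt p q H ε n x : ℝ) ≤ s * n → ∃ y ∈ F, ‖x - y‖ ≤ (1 / 2 : ℝ) ^ n)
    (ν : Measure T)
    (hν : ∀ᵐ x ∂ν, ∀ᶠ n : ℕ in atTop,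
      ν (Metric.closedBall x ((1 / 2 : ℝ) ^ n)) ≤ ENNReal.ofReal ((2 : ℝ) ^ (-(s' * n)))) :
    ∀ᵐ x ∂ν, ∀ᶠ n : ℕ in atTop, s * n < cnt p q H ε n x := by
  set D : ℕ → ℕ → Set T := fun j n => {x | (∀ i, j ≤ i →
    ν (Metric.closedBall x ((1 / 2 : ℝ) ^ i)) ≤ ENNReal.ofReal ((2 : ℝ) ^ (-(s' * i)))) ∧
    (cnt p q H ε n x : ℝ) ≤ s * n} with hD
  have hbound : ∀ j n, n0 ≤ n → j + 1 ≤ n → ν (D j n) ≤
      ENNReal.ofReal ((2 : ℝ) ^ s' * ((2 : ℝ) ^ (s'' - s')) ^ n) := by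
    intro j n hn hj
    obtain ⟨F, hF1, hF2⟩ := hcov n hn
    have h1 := measure_le_of_cover (ν := ν) (D := D j n) (F := F) (ρ := (1 / 2 : ℝ) ^ n)
      (c := ENNReal.ofReal ((2 : ℝ) ^ (-(s' * (n - 1 : ℕ))))) (fun x hx => hF2 x hx.2)
      (fun x hx => by
        have h2 := hx.1 (n - 1) (by omega)
        have e : 2 * (1 / 2 : ℝ) ^ n = (1 / 2 : ℝ) ^ (n - 1) := by
          obtain ⟨k, rfl⟩ : ∃ k, n = k + 1 := ⟨n - 1, by omega⟩
          rw [Nat.add_sub_cancel, pow_succ]; ring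
        rw [e]
        exact h2)
    refine h1.trans ?_
    rw [← ENNReal.ofReal_natCast, ← ENNReal.ofReal_mul (Nat.cast_nonneg _)]
    apply ENNReal.ofReal_le_ofReal
    have e1 : ((n - 1 : ℕ) : ℝ) = n - 1 := by
      rw [Nat.cast_sub (by omega)]; simp
    rw [e1]
    calc (F.card : ℝ) * (2 : ℝ) ^ (-(s' * ((n : ℝ) - 1)))
        ≤ (2 : ℝ) ^ (s'' * n) * (2 : ℝ) ^ (-(s' * ((n : ℝ) - 1))) := by gcongr
      _ = (2 : ℝ) ^ s' * ((2 : ℝ) ^ (s'' - s')) ^ n := by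
          rw [← Real.rpow_natCast ((2 : ℝ) ^ (s'' - s')), ← Real.rpow_mul (by norm_num),
            ← Real.rpow_add (by norm_num), ← Real.rpow_add (by norm_num)]
          congr 1; ring
  have hρ1 : (2 : ℝ) ^ (s'' - s') < 1 := Real.rpow_lt_one_of_one_lt_of_neg (by norm_num) (by linarith)
  have hρ0 : (0 : ℝ) < (2 : ℝ) ^ (s'' - s') := by positivity
  have hBC : ∀ j : ℕ, ∀ᵐ x ∂ν, ∀ᶠ n in atTop, x ∉ D j n := by
    intro j
    have h1 : ∑' i : ℕ, ν (D j (i + (n0 + j + 1))) ≠ ⊤ := by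
      refine ne_top_of_le_ne_top ?_ (ENNReal.tsum_le_tsum fun i =>
        hbound j (i + (n0 + j + 1)) (by omega) (by omega))
      have h2 : Summable fun i : ℕ => (2 : ℝ) ^ s' * ((2 : ℝ) ^ (s'' - s')) ^ (i + (n0 + j + 1)) :=
        ((summable_nat_add_iff (n0 + j + 1)).2
          (summable_geometric_of_lt_one hρ0.le hρ1)).mul_left _
      exact h2.tsum_ofReal_ne_top
    filter_upwards [ae_eventually_notMem h1] with x hx
    obtain ⟨N, hN⟩ := eventually_atTop.1 hx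
    refine eventually_atTop.2 ⟨N + (n0 + j + 1), fun n hn => ?_⟩
    have := hN (n - (n0 + j + 1)) (by omega)
    rwa [show n - (n0 + j + 1) + (n0 + j + 1) = n by omega] at this
  rw [← ae_all_iff] at hBC
  filter_upwards [hBC, hν] with x hx hxν
  obtain ⟨j, hj⟩ := eventually_atTop.1 hxν
  filter_upwards [hx j] with n hn
  by_contra hcon
  push Not at hcon
  exact hn ⟨hj, hcon⟩

/-- measures of large upper dimension -/
theorem ae_upper {p q : ℕ} {H ε s s' s'' : ℝ} (hs'' : s'' < s') {n0 : ℕ}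
    (hcov : ∀ n : ℕ, n0 ≤ n → ∃ F : Finset T, (F.card : ℝ) ≤ (2 : ℝ) ^ (s'' * n) ∧
        ∀ x : T, (cnt p q H ε n x : ℝ) ≤ s * n → ∃ y ∈ F, ‖x - y‖ ≤ (1 / 2 : ℝ) ^ n)
    (ν : Measure T)
    (hν : ∀ᵐ x ∂ν, ∃ᶠ n : ℕ in atTop,
      ν (Metric.closedBall x ((1 / 2 : ℝ) ^ n)) ≤ ENNReal.ofReal ((2 : ℝ) ^ (-(s' * n)))) :
    ∀ᵐ x ∂ν, ∃ᶠ n : ℕ in atTop, s * n < cnt p q H ε n x := by
  set D : ℕ → ℕ → Set T := fun j n => {x | (∀ i, j ≤ i → (cnt p q H ε i x : ℝ) ≤ s * i) ∧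
    ν (Metric.closedBall x ((1 / 2 : ℝ) ^ n)) ≤ ENNReal.ofReal ((2 : ℝ) ^ (-(s' * n)))} with hD
  have hbound : ∀ j n, n0 ≤ n → j ≤ n → ν (D j n) ≤
      ENNReal.ofReal ((2 : ℝ) ^ s'' * ((2 : ℝ) ^ (s'' - s')) ^ n) := by
    intro j n hn hj
    obtain ⟨F, hF1, hF2⟩ := hcov (n + 1) (by omega)
    have h1 := measure_le_of_cover (ν := ν) (D := D j n) (F := F) (ρ := (1 / 2 : ℝ) ^ (n + 1))
      (c := ENNReal.ofReal ((2 : ℝ) ^ (-(s' * n)))) (fun x hx => hF2 x (hx.1 (n + 1) (by omega)))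
      (fun x hx => by
        have e : 2 * (1 / 2 : ℝ) ^ (n + 1) = (1 / 2 : ℝ) ^ n := by
          rw [pow_succ]; ring
        rw [e]
        exact hx.2)
    refine h1.trans ?_
    rw [← ENNReal.ofReal_natCast, ← ENNReal.ofReal_mul (Nat.cast_nonneg _)]
    apply ENNReal.ofReal_le_ofReal
    calc (F.card : ℝ) * (2 : ℝ) ^ (-(s' * (n : ℝ)))
        ≤ (2 : ℝ) ^ (s'' * ((n + 1 : ℕ) : ℝ)) * (2 : ℝ) ^ (-(s' * (n : ℝ))) := by gcongr
      _ = (2 : ℝ) ^ s'' * ((2 : ℝ) ^ (s'' - s')) ^ n := by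
          rw [← Real.rpow_natCast ((2 : ℝ) ^ (s'' - s')), ← Real.rpow_mul (by norm_num),
            ← Real.rpow_add (by norm_num), ← Real.rpow_add (by norm_num)]
          congr 1; push_cast; ring
  have hρ1 : (2 : ℝ) ^ (s'' - s') < 1 := Real.rpow_lt_one_of_one_lt_of_neg (by norm_num) (by linarith)
  have hρ0 : (0 : ℝ) < (2 : ℝ) ^ (s'' - s') := by positivity
  have hBC : ∀ j : ℕ, ∀ᵐ x ∂ν, ∀ᶠ n in atTop, x ∉ D j n := by
    intro j
    have h1 : ∑' i : ℕ, ν (D j (i + (n0 + j))) ≠ ⊤ := by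
      refine ne_top_of_le_ne_top ?_ (ENNReal.tsum_le_tsum fun i =>
        hbound j (i + (n0 + j)) (by omega) (by omega))
      have h2 : Summable fun i : ℕ => (2 : ℝ) ^ s'' * ((2 : ℝ) ^ (s'' - s')) ^ (i + (n0 + j)) :=
        ((summable_nat_add_iff (n0 + j)).2
          (summable_geometric_of_lt_one hρ0.le hρ1)).mul_left _
      exact h2.tsum_ofReal_ne_top
    filter_upwards [ae_eventually_notMem h1] with x hx
    obtain ⟨N, hN⟩ := eventually_atTop.1 hx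
    refine eventually_atTop.2 ⟨N + (n0 + j), fun n hn => ?_⟩
    have := hN (n - (n0 + j)) (by omega)
    rwa [show n - (n0 + j) + (n0 + j) = n by omega] at this
  rw [← ae_all_iff] at hBC
  filter_upwards [hBC, hν] with x hx hxν
  by_contra hcon
  rw [not_frequently] at hcon
  obtain ⟨j, hj⟩ := eventually_atTop.1 hcon
  obtain ⟨n, hn1, hn2⟩ := (hxν.and_eventually (hx j)).exists
  exact hn2 ⟨fun i hi => not_lt.1 (hj i hi), hn1⟩

end Pool.Agent.N254.WS
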