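import Pool.Agent.N254.WS.Main
import Pool.Agent.Y314.FD.Jarnik

/-!
Points with long runs of zero digits have few good windows.
-/

set_option autoImplicit false

open MeasureTheory Filter Topology Set
open scoped ENNReal

namespace Pool.Agent.N254.WS

open Pool.Agent.W764.FB Pool.Agent.W764.SH Pool.Agent.W764.HL

section
variable {p q : ℕ} (hp : 2 ≤ p) (hq : 2 ≤ q)
include hp hq

lemma ceil_sub_le {a b : ℝ} (hab : a ≤ b) : ((⌈b⌉₊ - ⌈a⌉₊ : ℕ) : ℝ) ≤ b - a + 1 := by
  rcases le_total b 0 with hb | hb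
  · rw [Nat.ceil_eq_zero.2 hb]
    simp
    linarith
  · have h1 : (⌈b⌉₊ : ℝ) < b + 1 := Nat.ceil_lt_add_one hb
    have h2 : a ≤ ⌈a⌉₊ := Nat.le_ceil a
    have h3 : ((⌈b⌉₊ - ⌈a⌉₊ : ℕ) : ℝ) = (⌈b⌉₊ : ℝ) - ⌈a⌉₊ := by
      rw [Nat.cast_sub (Nat.ceil_le_ceil hab)]
    rw [h3]
    linarith

/-- upper bound for the number of elements of a window -/
lemma card_win_le {X H : ℝ} (hX : 1 ≤ X) (hH : 1 ≤ H) :
    ((win p q X (H * X)).card : ℝ) ≤
      (Real.log (H * X) / Real.log p + 1) * (Real.log H / Real.log q + 1) := by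
  classical
  obtain ⟨hlp, hlq⟩ := log_pos' hp hq
  have hX0 : 0 < X := by linarith
  have hH0 : 0 < H := by linarith
  have hHX0 : 0 < H * X := by positivity
  have hlH : 0 ≤ Real.log H := Real.log_nonneg hH
  have hlHX : 0 ≤ Real.log (H * X) := Real.log_nonneg (by nlinarith)
  have hlog : Real.log (H * X) = Real.log H + Real.log X := Real.log_mul hH0.ne' hX0.ne'
  set A : ℕ → ℝ := fun i => (Real.log X - i * Real.log p) / Real.log q with hA
  set B : ℕ → ℝ := fun i => (Real.log (H * X) - i * Real.log p) / Real.log q with hB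
  have hAB : ∀ i, A i ≤ B i := by
    intro i
    rw [hA, hB]
    simp only
    gcongr
    nlinarith
  have hBA : ∀ i, B i - A i = Real.log H / Real.log q := by
    intro i
    rw [hA, hB]
    simp only
    rw [hlog]
    field_simp
    ring
  have hsub : win p q X (H * X) ⊆ (Finset.range (⌊Real.log (H * X) / Real.log p⌋₊ + 1)).biUnion
      fun i => (Finset.Ico ⌈A i⌉₊ ⌈B i⌉₊).image fun j => p ^ i * q ^ j := by
    intro n hn
    rw [mem_win] at hn
    obtain ⟨⟨i, j, rfl⟩, h1, h2⟩ := hn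
    have hn0 : (0 : ℝ) < ((p ^ i * q ^ j : ℕ) : ℝ) := by
      have : 0 < p ^ i * q ^ j := by positivity
      exact_mod_cast this
    have h3 : Real.log X ≤ i * Real.log p + j * Real.log q := by
      rw [← log_pow_mul hp hq]; exact Real.log_le_log hX0 h1
    have h4 : i * Real.log p + j * Real.log q < Real.log (H * X) := by
      rw [← log_pow_mul hp hq]; exact Real.log_lt_log hn0 h2
    rw [Finset.mem_biUnion]
    refine ⟨i, ?_, Finset.mem_image.2 ⟨j, ?_, rfl⟩⟩
    · rw [Finset.mem_range, Nat.lt_add_one_iff, Nat.le_floor_iff (by positivity), le_div_iff₀ hlp]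
      have : 0 ≤ (j : ℝ) * Real.log q := by positivity
      linarith
    · rw [Finset.mem_Ico, Nat.ceil_le, Nat.lt_ceil]
      constructor
      · rw [hA]; simp only; rw [div_le_iff₀ hlq]; linarith
      · rw [hB]; simp only; rw [lt_div_iff₀ hlq]; linarith
  have h1 : (win p q X (H * X)).card ≤ ∑ i ∈ Finset.range (⌊Real.log (H * X) / Real.log p⌋₊ + 1),
      (⌈B i⌉₊ - ⌈A i⌉₊) := by
    refine (Finset.card_le_card hsub).trans (Finset.card_biUnion_le.trans ?_)
    refine Finset.sum_le_sum fun i _ => ?_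
    refine Finset.card_image_le.trans ?_
    rw [Nat.card_Ico]
  have h2 : ((win p q X (H * X)).card : ℝ) ≤
      ∑ i ∈ Finset.range (⌊Real.log (H * X) / Real.log p⌋₊ + 1), (Real.log H / Real.log q + 1) := by
    refine le_trans (Nat.cast_le.2 h1) ?_
    rw [Nat.cast_sum]
    refine Finset.sum_le_sum fun i _ => ?_
    have := ceil_sub_le hp hq (hAB i)
    rwa [hBA i] at this
  refine h2.trans ?_
  rw [Finset.sum_const, Finset.card_range, nsmul_eq_mul]
  have h3 : ((⌊Real.log (H * X) / Real.log p⌋₊ + 1 : ℕ) : ℝ) ≤ Real.log (H * X) / Real.log p + 1 := by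
    push_cast
    have := Nat.floor_le (by positivity : 0 ≤ Real.log (H * X) / Real.log p)
    linarith
  have h4 : 0 ≤ Real.log H / Real.log q + 1 := by positivity
  exact mul_le_mul_of_nonneg_right h3 h4

/-- lower bound for the number of elements of a window which are divisible by `p ^ n1` -/
lemma le_card_win (hirr : Irrational (Real.log p / Real.log q)) {X H : ℝ} (hX : 1 ≤ X)
    (hH : 1 ≤ H) (n1 : ℕ) {Q : ℕ → Prop} [DecidablePred Q]
    (hQ : ∀ i j : ℕ, n1 ≤ i → X ≤ ((p ^ i * q ^ j : ℕ) : ℝ) → ((p ^ i * q ^ j : ℕ) : ℝ) < H * X →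
      Q (p ^ i * q ^ j)) :
    (Real.log X / Real.log p - n1) * ⌊Real.log H / Real.log q⌋₊ ≤
      (((win p q X (H * X)).filter Q).card : ℝ) := by
  classical
  obtain ⟨hlp, hlq⟩ := log_pos' hp hq
  have hX0 : 0 < X := by linarith
  have hH0 : 0 < H := by linarith
  have hHX0 : 0 < H * X := by positivity
  have hlH : 0 ≤ Real.log H := Real.log_nonneg hH
  have hlX : 0 ≤ Real.log X := Real.log_nonneg hX
  have hlog : Real.log (H * X) = Real.log H + Real.log X := Real.log_mul hH0.ne' hX0.ne'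
  set M : ℕ := ⌊Real.log X / Real.log p⌋₊ with hM
  set h : ℕ := ⌊Real.log H / Real.log q⌋₊ with hh
  set jj : ℕ → ℕ := fun i => ⌈(Real.log X - i * Real.log p) / Real.log q⌉₊ with hjj
  set f : ℕ × ℕ → ℕ := fun w => p ^ w.1 * q ^ (jj w.1 + w.2) with hf
  have hinj : Set.InjOn f ((Finset.Ico n1 (M + 1) ×ˢ Finset.range h : Finset (ℕ × ℕ)) : Set (ℕ × ℕ)) := by
    rintro ⟨i, l⟩ - ⟨i', l'⟩ - he
    have h1 := pow_mul_inj hp hq hirr (a₁ := (i, jj i + l)) (a₂ := (i', jj i' + l')) he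
    rw [Prod.mk.injEq] at h1
    obtain ⟨h2, h3⟩ := h1
    subst h2
    have h4 : l = l' := by omega
    rw [h4]
  have hmaps : ∀ w ∈ Finset.Ico n1 (M + 1) ×ˢ Finset.range h, f w ∈ (win p q X (H * X)).filter Q := by
    rintro ⟨i, l⟩ hw
    rw [Finset.mem_product, Finset.mem_Ico, Finset.mem_range] at hw
    obtain ⟨⟨hi1, hi2⟩, hl⟩ := hw
    simp only at hi1 hi2 hl
    have hn0 : (0 : ℝ) < ((p ^ i * q ^ (jj i + l) : ℕ) : ℝ) := by
      have : 0 < p ^ i * q ^ (jj i + l) := by positivity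
      exact_mod_cast this
    have hiX : (i : ℝ) * Real.log p ≤ Real.log X := by
      rw [← le_div_iff₀ hlp]
      refine le_trans ?_ (Nat.floor_le (by positivity))
      exact_mod_cast (by omega : i ≤ M)
    have h5 : (Real.log X - i * Real.log p) / Real.log q ≤ jj i := Nat.le_ceil _
    have h6 : (jj i : ℝ) < (Real.log X - i * Real.log p) / Real.log q + 1 :=
      Nat.ceil_lt_add_one (div_nonneg (by linarith) hlq.le)
    have h7 : ((l : ℝ) + 1) ≤ Real.log H / Real.log q := by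
      refine le_trans ?_ (Nat.floor_le (by positivity))
      exact_mod_cast (by omega : l + 1 ≤ h)
    rw [div_le_iff₀ hlq] at h5
    rw [← sub_lt_iff_lt_add, lt_div_iff₀ hlq] at h6
    rw [le_div_iff₀ hlq] at h7
    have hl0 : 0 ≤ (l : ℝ) * Real.log q := by positivity
    have h8 : X ≤ ((p ^ i * q ^ (jj i + l) : ℕ) : ℝ) := by
      rw [← Real.log_le_log_iff hX0 hn0, log_pow_mul hp hq]
      push_cast
      linarith
    have h9 : ((p ^ i * q ^ (jj i + l) : ℕ) : ℝ) < H * X := by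
      rw [← Real.log_lt_log_iff hn0 hHX0, log_pow_mul hp hq, hlog]
      push_cast
      linarith
    rw [Finset.mem_filter, mem_win]
    exact ⟨⟨⟨i, _, rfl⟩, h8, h9⟩, hQ i _ hi1 h8 h9⟩
  have hcard := Finset.card_le_card_of_injOn f hmaps hinj
  rw [Finset.card_product, Nat.card_Ico, Finset.card_range] at hcard
  have h10 : Real.log X / Real.log p - n1 ≤ ((M + 1 - n1 : ℕ) : ℝ) := by
    have h11 : Real.log X / Real.log p < M + 1 := Nat.lt_floor_add_one _
    have h12 : (((M + 1 : ℕ) : ℝ)) - n1 ≤ ((M + 1 - n1 : ℕ) : ℝ) := by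
      rcases le_total n1 (M + 1) with h13 | h13
      · rw [Nat.cast_sub h13]
      · rw [Nat.sub_eq_zero_of_le h13]
        have : ((M + 1 : ℕ) : ℝ) ≤ n1 := by exact_mod_cast h13
        simp only [Nat.cast_zero]
        linarith
    push_cast at h12
    push_cast
    linarith
  calc (Real.log X / Real.log p - n1) * (h : ℝ) ≤ ((M + 1 - n1 : ℕ) : ℝ) * h :=
        mul_le_mul_of_nonneg_right h10 (Nat.cast_nonneg _)
    _ ≤ _ := by exact_mod_cast hcard

/-- points with a long run of zero digits are not equidistributed in the windows inside the run -/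
lemma bad_window (hirr : Irrational (Real.log p / Real.log q)) {n1 n2 D : ℕ} {x : T}
    (hn : n1 ≤ n2) (hx : ‖p ^ n1 • x‖ ≤ 1 / (p : ℝ) ^ (n2 - n1)) {X H : ℝ} (hX : 1 ≤ X)
    (hH : (q : ℝ) ≤ H) (hHX : H * X * (p : ℝ) ^ D ≤ (p : ℝ) ^ n2) {θ ε : ℝ}
    (h1 : θ * (Real.log X / Real.log p) ≤ Real.log X / Real.log p - n1) (hθ : 0 ≤ θ)
    (h2 : Real.log H / Real.log p + 1 ≤ Real.log X / Real.log p) (hD1 : 1 ≤ D)
    (hD : 2 * (1 / (p : ℝ) ^ D) + ε < θ / 6) : ¬ Equi p q X (H * X) ε x := by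
  classical
  rintro ⟨hne, hE⟩
  obtain ⟨hlp, hlq⟩ := log_pos' hp hq
  have hp0 : (0 : ℝ) < p := by exact_mod_cast (by omega : 0 < p)
  have hp1 : (1 : ℝ) < p := by exact_mod_cast (by omega : 1 < p)
  have hq1 : (1 : ℝ) < q := by exact_mod_cast (by omega : 1 < q)
  have hH1 : 1 ≤ H := hq1.le.trans hH
  have hX0 : 0 < X := by linarith
  have hlH : Real.log q ≤ Real.log H := Real.log_le_log (by linarith) hH
  have hH0 : 0 < H := by linarith
  set W := win p q X (H * X) with hW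
  set u : ℝ := Real.log X / Real.log p with hu
  have hcardpos : (0 : ℝ) < W.card := by exact_mod_cast hne.card_pos
  set r : ℝ := 1 / (p : ℝ) ^ D with hr
  have hr0 : 0 < r := by positivity
  have hr1 : r ≤ 1 / 2 := by
    apply one_div_le_one_div_of_le (by norm_num)
    calc (2 : ℝ) ≤ p := by exact_mod_cast hp
      _ = (p : ℝ) ^ 1 := (pow_one _).symm
      _ ≤ (p : ℝ) ^ D := pow_le_pow_right₀ hp1.le hD1
  have hlow := le_card_win hp hq hirr hX hH1 n1 (Q := fun n => ‖n • x - 0‖ ≤ r) (by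
    intro i j hi hX1 hX2
    rw [sub_zero]
    have e1 : (p ^ i * q ^ j) • x = (p ^ (i - n1) * q ^ j) • (p ^ n1 • x) := by
      rw [smul_smul]
      congr 1
      have : p ^ i = p ^ (i - n1) * p ^ n1 := by rw [← pow_add]; congr 1; omega
      rw [this]; ring
    rw [e1]
    refine (norm_nsmul_le).trans ?_
    have h3 : ((p ^ (i - n1) * q ^ j : ℕ) : ℝ) * ‖p ^ n1 • x‖ ≤
        ((p ^ (i - n1) * q ^ j : ℕ) : ℝ) * (1 / (p : ℝ) ^ (n2 - n1)) :=
      mul_le_mul_of_nonneg_left hx (Nat.cast_nonneg _)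
    refine h3.trans ?_
    rw [hr, mul_one_div, div_le_div_iff₀ (by positivity) (by positivity), one_mul]
    have e2 : (p : ℝ) ^ n2 = p ^ (n2 - n1) * p ^ n1 := by rw [← pow_add]; congr 1; omega
    have e3 : ((p ^ i * q ^ j : ℕ) : ℝ) = ((p ^ (i - n1) * q ^ j : ℕ) : ℝ) * p ^ n1 := by
      have : p ^ i = p ^ (i - n1) * p ^ n1 := by rw [← pow_add]; congr 1; omega
      rw [this]; push_cast; ring
    rw [e3] at hX2
    have h4 : ((p ^ (i - n1) * q ^ j : ℕ) : ℝ) * p ^ D * p ^ n1 ≤ (p : ℝ) ^ (n2 - n1) * p ^ n1 := by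
      rw [← e2]
      refine le_trans ?_ hHX
      calc ((p ^ (i - n1) * q ^ j : ℕ) : ℝ) * (p : ℝ) ^ D * p ^ n1 =
            ((p ^ (i - n1) * q ^ j : ℕ) : ℝ) * p ^ n1 * (p : ℝ) ^ D := by ring
        _ ≤ H * X * (p : ℝ) ^ D := mul_le_mul_of_nonneg_right hX2.le (by positivity)
    exact le_of_mul_le_mul_right h4 (by positivity))
  have hup := card_win_le hp hq hX hH1
  have hvis := hE 0 r hr0.le hr1
  rw [abs_le] at hvis
  have hvis2 : (vis p q X (H * X) x 0 r : ℝ) = ((W.filter fun n => ‖n • x - 0‖ ≤ r).card : ℝ) := by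
    unfold vis
    congr 2
  rw [hvis2] at hvis
  set g : ℝ := Real.log H / Real.log q with hg
  have hg1 : 1 ≤ g := by rw [hg, le_div_iff₀ hlq, one_mul]; exact hlH
  have hh1 : (1 : ℝ) ≤ ⌊g⌋₊ := by
    have : 1 ≤ ⌊g⌋₊ := (Nat.one_le_floor_iff g).2 hg1
    exact_mod_cast this
  have hh2 : g < ⌊g⌋₊ + 1 := Nat.lt_floor_add_one g
  have hlog : Real.log (H * X) = Real.log H + Real.log X := Real.log_mul hH0.ne' hX0.ne'
  have hu1 : 1 ≤ u := by
    have : 0 ≤ Real.log H / Real.log p := div_nonneg (by linarith) hlp.le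
    linarith
  have h5 : Real.log (H * X) / Real.log p + 1 ≤ 2 * u := by
    rw [hlog, add_div]; linarith
  have h6 : (W.card : ℝ) ≤ 6 * u * ⌊g⌋₊ := by
    refine hup.trans ?_
    calc (Real.log (H * X) / Real.log p + 1) * (g + 1) ≤ (2 * u) * (3 * ⌊g⌋₊) := by
          apply mul_le_mul h5 (by linarith) (by linarith) (by linarith)
      _ = _ := by ring
  have h7 : θ * u * ⌊g⌋₊ ≤ ((W.filter fun n => ‖n • x - 0‖ ≤ r).card : ℝ) := by
    refine le_trans ?_ hlow
    exact mul_le_mul_of_nonneg_right h1 (by linarith)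
  have h8 : θ / 6 * W.card ≤ θ * u * ⌊g⌋₊ := by
    calc θ / 6 * W.card ≤ θ / 6 * (6 * u * ⌊g⌋₊) := by gcongr
      _ = _ := by ring
  have h9 : (2 * r + ε) * W.card < θ / 6 * W.card := mul_lt_mul_of_pos_right hD hcardpos
  linarith [hvis.2]

/-- points with infinitely many long runs of zero digits have few good windows -/
theorem few_good (hirr : Irrational (Real.log p / Real.log q)) {w s : ℝ} (hw : 0 ≤ w)
    (hws : w < s) : ∃ ε : ℝ, 0 < ε ∧ ∃ s2 : ℝ, 0 ≤ s2 ∧ s2 < s ∧ ∀ x : T, ∀ n1 n2 : ℕ → ℕ,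
      Tendsto n2 atTop atTop → (∀ k, (n1 k : ℝ) = w * n2 k) → (∀ k, n1 k ≤ n2 k) →
      (∀ k, ‖p ^ (n1 k) • x‖ ≤ 1 / (p : ℝ) ^ (n2 k - n1 k)) → ∀ H : ℝ, (q : ℝ) ≤ H →
      ∃ᶠ n : ℕ in atTop, (cnt p q H ε n x : ℝ) ≤ s2 * n := by
  obtain ⟨hlp, hlq⟩ := log_pos' hp hq
  have hp0 : (0 : ℝ) < p := by exact_mod_cast (by omega : 0 < p)
  have hp1 : (1 : ℝ) < p := by exact_mod_cast (by omega : 1 < p)
  have hq1 : (1 : ℝ) < q := by exact_mod_cast (by omega : 1 < q)
  have hl2 : 0 < Real.log 2 := Real.log_pos (by norm_num)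
  set s1 : ℝ := w + (s - w) / 3 with hs1
  set s2 : ℝ := w + 2 * (s - w) / 3 with hs2
  have hws1 : w < s1 := by rw [hs1]; linarith
  have hs12 : s1 < s2 := by rw [hs1, hs2]; linarith
  have hs2s : s2 < s := by rw [hs2]; linarith
  have hs10 : 0 < s1 := by linarith
  have hs20 : 0 < s2 := by linarith
  set θ : ℝ := 1 - w / s1 with hθ
  have hθ0 : 0 < θ := by
    rw [hθ, sub_pos, div_lt_one hs10]; exact hws1
  obtain ⟨D0, hD0⟩ := pow_unbounded_of_one_lt (48 / θ) hp1
  set D : ℕ := D0 + 1 with hD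
  have hDθ : 1 / (p : ℝ) ^ D ≤ θ / 48 := by
    have h1 : (p : ℝ) ^ D0 ≤ (p : ℝ) ^ D := pow_le_pow_right₀ hp1.le (by omega)
    rw [div_lt_iff₀ hθ0] at hD0
    rw [div_le_iff₀ (by positivity)]
    have h2 : 48 < (p : ℝ) ^ D * θ := hD0.trans_le (mul_le_mul_of_nonneg_right h1 hθ0.le)
    linarith
  have hD1 : 1 ≤ D := by omega
  clear_value D
  refine ⟨θ / 24, by positivity, s2, hs20.le, hs2s, fun x n1 n2 hn2 hn1 hle hrun H hH => ?_⟩
  have hH1 : 1 ≤ H := hq1.le.trans hH
  have hH0 : 0 < H := by linarith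
  have hlH : 0 ≤ Real.log H := Real.log_nonneg hH1
  rw [frequently_atTop]
  intro N0
  -- a large run
  set B : ℝ := max (max ((Real.log H / Real.log p + 1) / s1)
    (((N0 + 1) * Real.log 2 + D * Real.log p + Real.log H) / Real.log p))
    ((1 + s2 * (D * Real.log p / Real.log 2 + Real.log H / Real.log 2 + 1)) /
      ((s2 - s1) * (Real.log p / Real.log 2))) with hB
  have hcast : Tendsto (fun k => (n2 k : ℝ)) atTop atTop := tendsto_natCast_atTop_atTop.comp hn2
  obtain ⟨k, hk⟩ := (hcast.eventually_ge_atTop B).exists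
  have hk1 : (Real.log H / Real.log p + 1) / s1 ≤ n2 k :=
    ((le_max_left _ _).trans (le_max_left _ _)).trans hk
  have hk2 : ((N0 + 1) * Real.log 2 + D * Real.log p + Real.log H) / Real.log p ≤ n2 k :=
    ((le_max_right _ _).trans (le_max_left _ _)).trans hk
  have hk3 : (1 + s2 * (D * Real.log p / Real.log 2 + Real.log H / Real.log 2 + 1)) /
      ((s2 - s1) * (Real.log p / Real.log 2)) ≤ n2 k := (le_max_right _ _).trans hk
  rw [div_le_iff₀ hs10] at hk1
  rw [div_le_iff₀ hlp] at hk2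
  have hpos3 : 0 < (s2 - s1) * (Real.log p / Real.log 2) := mul_pos (by linarith) (by positivity)
  rw [div_le_iff₀ hpos3] at hk3
  set N : ℝ := (n2 k : ℝ) with hN
  set y : ℝ := ((N - D) * Real.log p - Real.log H) / Real.log 2 with hy
  have hy0 : (N0 : ℝ) + 1 ≤ y := by
    rw [hy, le_div_iff₀ hl2]; linarith
  have hN0 : (0 : ℝ) ≤ N0 := Nat.cast_nonneg _
  set n : ℕ := ⌊y⌋₊ with hn
  have hny : (n : ℝ) ≤ y := Nat.floor_le (by linarith)
  have hyn : y < n + 1 := Nat.lt_floor_add_one y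
  refine ⟨n, ?_, ?_⟩
  · have : (N0 : ℝ) < n := by linarith
    exact (by exact_mod_cast this : N0 < n).le
  · -- the good windows below `n` are small
    have hsub : {j : ℕ | j < n ∧ Equi p q (2 ^ j) (H * 2 ^ j) (θ / 24) x} ⊆
        ((Finset.range ⌈s1 * N * (Real.log p / Real.log 2)⌉₊ : Finset ℕ) : Set ℕ) := by
      rintro j ⟨hj, hjE⟩
      rw [Finset.mem_coe, Finset.mem_range, Nat.lt_ceil]
      by_contra hcon
      push Not at hcon
      have hlogX : Real.log ((2 : ℝ) ^ j) = j * Real.log 2 := Real.log_pow _ _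
      have hju : s1 * N ≤ Real.log ((2 : ℝ) ^ j) / Real.log p := by
        rw [hlogX, le_div_iff₀ hlp]
        have h1 := mul_le_mul_of_nonneg_right hcon hl2.le
        calc s1 * N * Real.log p = s1 * N * (Real.log p / Real.log 2) * Real.log 2 := by
              field_simp
          _ ≤ j * Real.log 2 := h1
      have hjn : (j : ℝ) ≤ y := le_trans (by exact_mod_cast hj.le) hny
      refine bad_window hp hq hirr (hle k) (hrun k) (X := 2 ^ j) (one_le_pow₀ (by norm_num)) hH
        (θ := θ) ?_ ?_ hθ0.le ?_ hD1 ?_ hjE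
      · rw [← Real.log_le_log_iff (by positivity) (by positivity),
          Real.log_mul (by positivity) (by positivity), Real.log_mul (by positivity) (by positivity),
          hlogX, Real.log_pow, Real.log_pow]
        rw [hy, le_div_iff₀ hl2] at hjn
        linarith
      · rw [hn1 k]
        have h3 : w * N ≤ w / s1 * (Real.log ((2 : ℝ) ^ j) / Real.log p) := by
          calc w * N = w / s1 * (s1 * N) := by field_simp
            _ ≤ _ := by gcongr
        rw [hθ]
        linarith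
      · linarith
      · linarith
    have hcnt : (cnt p q H (θ / 24) n x : ℝ) ≤ ⌈s1 * N * (Real.log p / Real.log 2)⌉₊ := by
      unfold cnt
      have h1 := Set.ncard_le_ncard hsub (Finset.finite_toSet _)
      rw [Set.ncard_coe_finset, Finset.card_range] at h1
      exact_mod_cast h1
    have hN0' : 0 ≤ N := Nat.cast_nonneg _
    have h4 : (⌈s1 * N * (Real.log p / Real.log 2)⌉₊ : ℝ) <
        s1 * N * (Real.log p / Real.log 2) + 1 := Nat.ceil_lt_add_one (by positivity)
    have h5 : y = N * (Real.log p / Real.log 2) -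
        (D * Real.log p / Real.log 2 + Real.log H / Real.log 2) := by
      rw [hy]; field_simp; ring
    have h6 : s2 * (y - 1) ≤ s2 * n := mul_le_mul_of_nonneg_left (by linarith) hs20.le
    rw [h5] at h6
    nlinarith

end

end Pool.Agent.N254.WS
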